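import Pool.Agent.H48L.A

/-!
Project JN (helper18), part LCT: classes of local squares (helper48). The index.
-/

set_option autoImplicit false
set_option linter.all false

open IsDedekindDomain WithZero

namespace Pool.Agent.H48L

section grp

variable {O : Type} [CommRing O] [IsDedekindDomain O] (K : Type) [Field K] [Algebra O K]
  [IsFractionRing O K] (T : Finset (HeightOneSpectrum O)) (E : HeightOneSpectrum O → ℕ)

theorem val_one_of {v : HeightOneSpectrum O} {x : K} {n : ℕ}
    (h : v.valuation K (x - 1) < exp (-(n : ℤ))) : v.valuation K x = 1 := by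
  have h1 : v.valuation K (x - 1) < v.valuation K 1 := by
    rw [map_one]
    refine h.trans_le ?_
    rw [← exp_zero, exp_le_exp]
    omega
  rw [Valuation.map_eq_of_sub_lt _ h1, map_one]

/-- the elements close to `1` -/
def Hs : Subgroup Kˣ where
  carrier := {x | ∀ v ∈ T, v.valuation K ((x : K) - 1) < exp (-((2 * E v : ℕ) : ℤ))}
  one_mem' := by
    intro v _
    rw [Units.val_one, sub_self, map_zero]
    exact exp_pos
  mul_mem' := by
    intro x y hx hy v hv
    have e : ((x * y : Kˣ) : K) - 1 = (x : K) * ((y : K) - 1) + ((x : K) - 1) := by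
      rw [Units.val_mul]; ring
    rw [e]
    refine (Valuation.map_add _ _ _).trans_lt (max_lt ?_ (hx v hv))
    rw [map_mul, val_one_of K (hx v hv), one_mul]
    exact hy v hv
  inv_mem' := by
    intro x hx v hv
    have e : ((x⁻¹ : Kˣ) : K) - 1 = -(((x⁻¹ : Kˣ) : K) * ((x : K) - 1)) := by
      rw [Units.val_inv_eq_inv_val]
      have := x.ne_zero
      field_simp
      ring
    rw [e, Valuation.map_neg, map_mul, Units.val_inv_eq_inv_val, map_inv₀,
      val_one_of K (hx v hv), inv_one, one_mul]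
    exact hx v hv

/-- the units at the primes in `T` -/
def Us : Subgroup Kˣ where
  carrier := {x | ∀ v ∈ T, v.valuation K (x : K) = 1}
  one_mem' := by
    intro v _
    rw [Units.val_one, map_one]
  mul_mem' := by
    intro x y hx hy v hv
    rw [Units.val_mul, map_mul, hx v hv, hy v hv, one_mul]
  inv_mem' := by
    intro x hx v hv
    rw [Units.val_inv_eq_inv_val, map_inv₀, hx v hv, inv_one]

/-- the squares -/
def Sqs (G : Type) [CommGroup G] : Subgroup G := (powMonoidHom 2 : G →* G).range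

theorem mem_Sqs {G : Type} [CommGroup G] {x : G} : x ∈ Sqs G ↔ ∃ y : G, y ^ 2 = x := Iff.rfl

/-- the valuations modulo 2 -/
noncomputable def vl : Kˣ →* (T → Multiplicative (ZMod 2)) where
  toFun x := fun v => Multiplicative.ofAdd ((log (v.1.valuation K (x : K)) : ℤ) : ZMod 2)
  map_one' := by
    funext v
    simp
  map_mul' x y := by
    funext v
    have hx : v.1.valuation K (x : K) ≠ 0 := (Valuation.ne_zero_iff _).2 x.ne_zero
    have hy : v.1.valuation K (y : K) ≠ 0 := (Valuation.ne_zero_iff _).2 y.ne_zero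
    rw [Units.val_mul, map_mul, log_mul hx hy]
    push_cast
    rfl

theorem vl_surj : Function.Surjective (vl K T) := by
  classical
  intro t
  obtain ⟨s, hs0, hs⟩ := presc (K := K) T
    (fun v => if h : v ∈ T then (((t ⟨v, h⟩).toAdd : ZMod 2).val : ℤ) else 0)
  refine ⟨Units.mk0 s hs0, ?_⟩
  funext v
  change Multiplicative.ofAdd ((log (v.1.valuation K s) : ℤ) : ZMod 2) = t v
  rw [hs v.1 v.2, log_exp, dif_pos v.2]
  simp

theorem Hs_le_Us : Hs K T E ≤ Us K T := fun x hx v hv => val_one_of K (hx v hv)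

theorem ker_eq : (vl K T).ker = Us K T ⊔ (Sqs Kˣ ⊔ Hs K T E) := by
  classical
  apply le_antisymm
  · intro x hx
    rw [MonoidHom.mem_ker] at hx
    have h1 : ∀ v : HeightOneSpectrum O, ∃ j : ℤ, v ∈ T → v.valuation K (x : K) = exp (2 * j) := by
      intro v
      by_cases hv : v ∈ T
      · have h2 := congrFun hx ⟨v, hv⟩
        have h3 : ((log (v.valuation K (x : K)) : ℤ) : ZMod 2) = 0 := h2
        rw [ZMod.intCast_zmod_eq_zero_iff_dvd] at h3
        obtain ⟨j, hj⟩ := h3
        refine ⟨j, fun _ => ?_⟩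
        have hx0 : v.valuation K (x : K) ≠ 0 := (Valuation.ne_zero_iff _).2 x.ne_zero
        rw [← exp_log hx0, hj]
        norm_num
      · exact ⟨0, fun h => absurd h hv⟩
    choose j hj using h1
    obtain ⟨s, hs0, hs⟩ := presc (K := K) T j
    have hu : x * (Units.mk0 s hs0)⁻¹ ^ 2 ∈ Us K T := by
      intro v hv
      rw [Units.val_mul, Units.val_pow_eq_pow_val, Units.val_inv_eq_inv_val, Units.val_mk0,
        map_mul, map_pow, map_inv₀, hj v hv, hs v hv, ← exp_neg, ← exp_nsmul, ← exp_add]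
      rw [← exp_zero]
      congr 1
      simp
    have hx2 : x = (x * (Units.mk0 s hs0)⁻¹ ^ 2) * (Units.mk0 s hs0) ^ 2 := by
      rw [mul_assoc, ← mul_pow, inv_mul_cancel, one_pow, mul_one]
    rw [hx2]
    refine Subgroup.mul_mem_sup hu ?_
    exact (le_sup_left : Sqs Kˣ ≤ Sqs Kˣ ⊔ Hs K T E) ⟨Units.mk0 s hs0, rfl⟩
  · have hU : Us K T ≤ (vl K T).ker := by
      intro x hx
      rw [MonoidHom.mem_ker]
      funext v
      change Multiplicative.ofAdd ((log (v.1.valuation K (x : K)) : ℤ) : ZMod 2) = 1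
      rw [hx v.1 v.2]
      simp
    refine sup_le hU (sup_le ?_ ((Hs_le_Us K T E).trans hU))
    rintro x ⟨y, rfl⟩
    rw [MonoidHom.mem_ker, powMonoidHom_apply, map_pow]
    funext v
    change (vl K T y v) ^ 2 = 1
    rw [← ofAdd_toAdd (vl K T y v), ← ofAdd_nsmul]
    have : ∀ a : ZMod 2, 2 • a = 0 := by decide
    rw [this]
    rfl

/-- the modulus -/
noncomputable def md : Ideal O := ∏ v ∈ T, v.asIdeal ^ (2 * E v + 1)

theorem mem_md (a : O) : a ∈ md T E ↔ ∀ v ∈ T, a ∈ v.asIdeal ^ (2 * E v + 1) := by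
  unfold md
  rw [← IsDedekindDomain.inf_prime_pow_eq_prod T (fun v : HeightOneSpectrum O => v.asIdeal)
    (fun v => 2 * E v + 1) (fun v _ => v.prime)
    (fun v _ w _ h he => h (HeightOneSpectrum.ext he))]
  simp [Submodule.mem_finsetInf]

/-- approximation -/
def Rl (x : K) (a : O) : Prop :=
  ∀ v ∈ T, v.valuation K (algebraMap O K a - x) ≤ exp (-((2 * E v + 1 : ℕ) : ℤ))

theorem mem_pow_iff {v : HeightOneSpectrum O} {a : O} {n : ℕ} :
    v.valuation K (algebraMap O K a) ≤ exp (-(n : ℤ)) ↔ a ∈ v.asIdeal ^ n := by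
  rw [← HeightOneSpectrum.intValuation_le_pow_iff_mem]
  have h := HeightOneSpectrum.valuation_of_algebraMap (K := K) v a
  exact ⟨fun k => h.symm.trans_le k, fun k => h.trans_le k⟩

theorem Rl_unique {x : K} {a b : O} (ha : Rl K T E x a) (hb : Rl K T E x b) : a - b ∈ md T E := by
  rw [mem_md]
  intro v hv
  rw [← mem_pow_iff K, map_sub]
  have e : algebraMap O K a - algebraMap O K b =
      (algebraMap O K a - x) - (algebraMap O K b - x) := by ring
  rw [e]
  exact (Valuation.map_sub _ _ _).trans (max_le (ha v hv) (hb v hv))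

theorem Rl_self (a : O) : Rl K T E (algebraMap O K a) a := by
  intro v _
  rw [sub_self, map_zero]
  exact zero_le

theorem Rl_one : Rl K T E 1 (1 : O) := by
  have := Rl_self K T E (1 : O)
  rwa [map_one] at this

theorem Rl_mul {x y : K} {a b : O} (hx : ∀ v ∈ T, v.valuation K x = 1)
    (ha : Rl K T E x a) (hb : Rl K T E y b) : Rl K T E (x * y) (a * b) := by
  intro v hv
  have e : algebraMap O K (a * b) - x * y =
      (algebraMap O K a - x) * algebraMap O K b + x * (algebraMap O K b - y) := by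
    rw [map_mul]; ring
  rw [e]
  refine (Valuation.map_add _ _ _).trans (max_le ?_ ?_)
  · rw [map_mul]
    refine (mul_le_mul' (ha v hv) (HeightOneSpectrum.valuation_le_one (K := K) v b)).trans ?_
    rw [mul_one]
  · rw [map_mul, hx v hv, one_mul]
    exact hb v hv

theorem exists_Rl (x : Us K T) : ∃ a : O, Rl K T E (x : Kˣ) a :=
  approx T (fun _ => ((x : Kˣ) : K)) (fun v hv => (x.2 v hv).le) (fun v => 2 * E v + 1)

/-- the reduction -/
noncomputable def psi0 : Us K T →* (O ⧸ md T E) where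
  toFun x := Ideal.Quotient.mk (md T E) (exists_Rl K T E x).choose
  map_one' := by
    rw [← map_one (Ideal.Quotient.mk (md T E)), Ideal.Quotient.eq]
    exact Rl_unique K T E (exists_Rl K T E 1).choose_spec (Rl_one K T E)
  map_mul' x y := by
    rw [← map_mul, Ideal.Quotient.eq]
    exact Rl_unique K T E (exists_Rl K T E (x * y)).choose_spec
      (Rl_mul K T E x.2 (exists_Rl K T E x).choose_spec (exists_Rl K T E y).choose_spec)

theorem psi0_eq {x : Us K T} {a : O} (h : Rl K T E (x : Kˣ) a) :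
    psi0 K T E x = Ideal.Quotient.mk (md T E) a := by
  change Ideal.Quotient.mk (md T E) _ = _
  rw [Ideal.Quotient.eq]
  exact Rl_unique K T E (exists_Rl K T E x).choose_spec h

theorem psi0_one {x : Us K T} (h : psi0 K T E x = 1) : (x : Kˣ) ∈ Hs K T E := by
  obtain ⟨a, ha⟩ := exists_Rl K T E x
  rw [psi0_eq K T E ha, ← map_one (Ideal.Quotient.mk (md T E)), Ideal.Quotient.eq, mem_md] at h
  intro v hv
  have h1 := h v hv
  rw [← mem_pow_iff K, map_sub, map_one] at h1
  have e : ((x : Kˣ) : K) - 1 = (algebraMap O K a - 1) - (algebraMap O K a - ((x : Kˣ) : K)) := by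
    ring
  rw [e]
  refine ((Valuation.map_sub _ _ _).trans (max_le h1 (ha v hv))).trans_lt ?_
  rw [exp_lt_exp]
  push_cast
  omega

theorem psi0_of_Hs {x : Us K T} (h : (x : Kˣ) ∈ Hs K T E) : psi0 K T E x = 1 := by
  rw [← map_one (Ideal.Quotient.mk (md T E))]
  apply psi0_eq
  intro v hv
  have h1 := h v hv
  rw [map_one, Valuation.map_sub_swap]
  by_cases h0 : v.valuation K (((x : Kˣ) : K) - 1) = 0
  · rw [h0]; exact zero_le
  · rw [← exp_log h0, exp_lt_exp] at h1
    rw [← exp_log h0, exp_le_exp]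
    push_cast at h1 ⊢
    omega

/-- the reduction, with values in the units -/
noncomputable def psi : Us K T →* (O ⧸ md T E)ˣ := (psi0 K T E).toHomUnits

theorem psi_coe (x : Us K T) : ((psi K T E x : (O ⧸ md T E)ˣ) : O ⧸ md T E) = psi0 K T E x := rfl

theorem psi_surj : Function.Surjective (psi K T E) := by
  intro u
  obtain ⟨a, ha⟩ := Ideal.Quotient.mk_surjective (u : O ⧸ md T E)
  obtain ⟨b, hb⟩ := Ideal.Quotient.mk_surjective ((u⁻¹ : (O ⧸ md T E)ˣ) : O ⧸ md T E)
  have h1 : a * b - 1 ∈ md T E := by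
    rw [← Ideal.Quotient.eq, map_mul, ha, hb, Units.mul_inv, map_one]
  have h2 : ∀ v ∈ T, v.valuation K (algebraMap O K a) = 1 := by
    intro v hv
    refine le_antisymm (HeightOneSpectrum.valuation_le_one (K := K) v a) ?_
    by_contra hc
    rw [not_le] at hc
    have hc' : v.valuation K (algebraMap O K a) ≤ exp (-((1 : ℕ) : ℤ)) := by
      by_cases h0 : v.valuation K (algebraMap O K a) = 0
      · rw [h0]; exact zero_le
      · rw [← exp_log h0, ← exp_zero, exp_lt_exp] at hc
        rw [← exp_log h0, exp_le_exp]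
        push_cast
        omega
    rw [mem_pow_iff K, pow_one] at hc'
    have h3 := (mem_md T E _).1 h1 v hv
    have h4 : a * b - 1 ∈ v.asIdeal := Ideal.pow_le_self (by omega) h3
    have h5 : (1 : O) ∈ v.asIdeal := by
      have := v.asIdeal.sub_mem (v.asIdeal.mul_mem_right b hc') h4
      rwa [sub_sub_cancel] at this
    exact v.isPrime.ne_top ((Ideal.eq_top_iff_one _).2 h5)
  by_cases ha0 : a = 0
  · have hT : ∀ v, v ∉ T := by
      intro v hv
      have := h2 v hv
      rw [ha0, map_zero, map_zero] at this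
      exact zero_ne_one this
    refine ⟨1, ?_⟩
    apply Units.ext
    rw [psi_coe, ← ha]
    apply psi0_eq
    intro v hv
    exact absurd hv (hT v)
  · have ha1 : algebraMap O K a ≠ 0 := by
      rwa [Ne, FaithfulSMul.algebraMap_eq_zero_iff]
    refine ⟨⟨Units.mk0 (algebraMap O K a) ha1, h2⟩, ?_⟩
    apply Units.ext
    rw [psi_coe, ← ha]
    apply psi0_eq
    exact Rl_self K T E a

theorem sub_eq : (Sqs Kˣ ⊔ Hs K T E).subgroupOf (Us K T) =
    (Sqs (O ⧸ md T E)ˣ).comap (psi K T E) := by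
  ext x
  rw [Subgroup.mem_subgroupOf, Subgroup.mem_comap, Subgroup.mem_sup]
  constructor
  · rintro ⟨y, ⟨s, rfl⟩, h, hh, he⟩
    have hs : s ∈ Us K T := by
      intro v hv
      have h1 := x.2 v hv
      have h2 := Hs_le_Us K T E hh v hv
      rw [← he, Units.val_mul, map_mul, h2, mul_one, powMonoidHom_apply, Units.val_pow_eq_pow_val,
        map_pow] at h1
      exact (pow_eq_one_iff.1 h1).resolve_right two_ne_zero
    refine mem_Sqs.2 ⟨psi K T E ⟨s, hs⟩, ?_⟩
    have e : x = (⟨s, hs⟩ : Us K T) ^ 2 * ⟨h, Hs_le_Us K T E hh⟩ := by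
      apply Subtype.ext
      rw [Subgroup.coe_mul, Subgroup.coe_pow]
      exact he.symm
    have e2 : psi K T E ⟨h, Hs_le_Us K T E hh⟩ = 1 := by
      apply Units.ext
      rw [psi_coe]
      exact psi0_of_Hs K T E hh
    rw [e, map_mul, map_pow, e2, mul_one]
  · intro hx
    obtain ⟨t, ht⟩ := mem_Sqs.1 hx
    obtain ⟨s, rfl⟩ := psi_surj K T E t
    have h1 : psi0 K T E (x * s⁻¹ ^ 2) = 1 := by
      rw [← psi_coe, map_mul, map_pow, map_inv, ← ht]
      rw [inv_pow, mul_inv_cancel, Units.val_one]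
    refine ⟨(s : Kˣ) ^ 2, ⟨s, rfl⟩, _, psi0_one K T E h1, ?_⟩
    rw [Subgroup.coe_mul, Subgroup.coe_pow, Subgroup.coe_inv, inv_pow]
    rw [mul_comm, inv_mul_cancel_right]

end grp

theorem index_Sqs (G : Type) [CommGroup G] [Finite G] :
    (Sqs G).index = Nat.card {x : G // x ^ 2 = 1} := by
  have h1 : Nat.card (Sqs G) * (Sqs G).index = Nat.card G := Subgroup.card_mul_index _
  have h2 : Nat.card (powMonoidHom 2 : G →* G).ker * (powMonoidHom 2 : G →* G).ker.index =
      Nat.card G := Subgroup.card_mul_index _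
  have h3 : (powMonoidHom 2 : G →* G).ker.index = Nat.card (Sqs G) :=
    Subgroup.index_ker _
  have h4 : Nat.card (powMonoidHom 2 : G →* G).ker = Nat.card {x : G // x ^ 2 = 1} :=
    Nat.card_congr (Equiv.subtypeEquivRight fun x => by
      rw [MonoidHom.mem_ker, powMonoidHom_apply])
  rw [h3, h4, mul_comm] at h2
  exact Nat.eq_of_mul_eq_mul_left Nat.card_pos (h1.trans h2.symm)

section fin

variable {O : Type} [CommRing O] [IsDedekindDomain O] [Module.Free ℤ O] [Module.Finite ℤ O]
  (K : Type) [Field K] [Algebra O K] [IsFractionRing O K] (T : Finset (HeightOneSpectrum O))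
  (E : HeightOneSpectrum O → ℕ)

theorem card_units_two (R : Type) [CommRing R] :
    Nat.card {x : Rˣ // x ^ 2 = 1} = Nat.card {x : R // x ^ 2 = 1} := by
  refine Nat.card_congr
    { toFun := fun x => ⟨(x.1 : R), by rw [← Units.val_pow_eq_pow_val, x.2, Units.val_one]⟩
      invFun := fun x => ⟨⟨x.1, x.1, by rw [← pow_two, x.2], by rw [← pow_two, x.2]⟩, by
        apply Units.ext
        rw [Units.val_pow_eq_pow_val]
        exact x.2⟩
      left_inv := fun x => by
        apply Subtype.ext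
        apply Units.ext
        rfl
      right_inv := fun x => rfl }

theorem card_md (h2 : ∀ v ∈ T, (2 : O) ∈ v.asIdeal ^ E v)
    (h2' : ∀ v ∈ T, (2 : O) ∉ v.asIdeal ^ (E v + 1)) :
    Nat.card {x : O ⧸ md T E // x ^ 2 = 1} = ∏ v ∈ T, (2 * Ideal.absNorm v.asIdeal ^ E v) := by
  classical
  let e := IsDedekindDomain.quotientEquivPiOfFinsetProdEq (s := T) (md T E)
    (fun v : HeightOneSpectrum O => v.asIdeal) (fun v => 2 * E v + 1) (fun v _ => v.prime)
    (fun v _ w _ h he => h (HeightOneSpectrum.ext he)) rfl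
  have h3 : Nat.card {x : O ⧸ md T E // x ^ 2 = 1} =
      Nat.card {x : ∀ v : T, O ⧸ v.1.asIdeal ^ (2 * E v.1 + 1) // x ^ 2 = 1} :=
    Nat.card_congr (e.toEquiv.subtypeEquiv fun x => by
      change x ^ 2 = 1 ↔ (e x) ^ 2 = 1
      rw [← map_pow]
      constructor
      · intro h; rw [h, map_one]
      · intro h; exact e.injective (by rw [h, map_one]))
  have h4 : Nat.card {x : ∀ v : T, O ⧸ v.1.asIdeal ^ (2 * E v.1 + 1) // x ^ 2 = 1} =
      Nat.card (∀ v : T, {x : O ⧸ v.1.asIdeal ^ (2 * E v.1 + 1) // x ^ 2 = 1}) := by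
    refine Nat.card_congr
      { toFun := fun x v => ⟨x.1 v, congrFun x.2 v⟩
        invFun := fun x => ⟨fun v => (x v).1, funext fun v => (x v).2⟩
        left_inv := fun x => rfl
        right_inv := fun x => rfl }
  rw [h3, h4, Nat.card_pi, ← Finset.prod_coe_sort T (fun v => 2 * Ideal.absNorm v.asIdeal ^ E v)]
  exact Finset.prod_congr rfl fun v _ => card_two v.1 (E v.1) (h2 v.1 v.2) (h2' v.1 v.2)

theorem index_eq (h2 : ∀ v ∈ T, (2 : O) ∈ v.asIdeal ^ E v)
    (h2' : ∀ v ∈ T, (2 : O) ∉ v.asIdeal ^ (E v + 1)) :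
    (Sqs Kˣ ⊔ Hs K T E).index = 4 ^ T.card * ∏ v ∈ T, Ideal.absNorm v.asIdeal ^ E v := by
  classical
  have hmd : md T E ≠ ⊥ := by
    unfold md
    exact Finset.prod_ne_zero_iff.2 fun v _ => pow_ne_zero _ v.ne_bot
  haveI : Finite (O ⧸ md T E) := Ideal.finiteQuotientOfFreeOfNeBot _ hmd
  have hle : Sqs Kˣ ⊔ Hs K T E ≤ (vl K T).ker := by
    rw [ker_eq K T E]
    exact le_sup_right
  have k1 : (vl K T).ker.index = 2 ^ T.card := by
    rw [Subgroup.index_ker, MonoidHom.range_eq_top.2 (vl_surj K T)]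
    rw [Nat.card_congr (Subgroup.topEquiv).toEquiv, Nat.card_pi]
    simp
  have k2 : (Sqs Kˣ ⊔ Hs K T E).relIndex (vl K T).ker =
      ∏ v ∈ T, (2 * Ideal.absNorm v.asIdeal ^ E v) := by
    rw [ker_eq K T E, Subgroup.relIndex_sup_right, Subgroup.relIndex, sub_eq,
      Subgroup.index_comap_of_surjective _ (psi_surj K T E), index_Sqs, card_units_two,
      card_md T E h2 h2']
  rw [← Subgroup.relIndex_mul_index hle, k1, k2, Finset.prod_mul_distrib, Finset.prod_const]
  have : (4 : ℕ) = 2 * 2 := rfl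
  rw [this, mul_pow]
  ring

end fin

end Pool.Agent.H48L
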