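import Mathlib

/-!
Project JN (helper18), part LCT: classes of local squares (helper48). Approximation.
-/

set_option autoImplicit false
set_option linter.all false

open IsDedekindDomain WithZero

namespace Pool.Agent.H48L

section ded

variable {O : Type} [CommRing O] [IsDedekindDomain O] {K : Type} [Field K] [Algebra O K]
  [IsFractionRing O K]

/-- simultaneous approximation of integral elements -/
theorem approx (T : Finset (HeightOneSpectrum O)) (x : HeightOneSpectrum O → K)
    (hx : ∀ v ∈ T, v.valuation K (x v) ≤ 1) (n : HeightOneSpectrum O → ℕ) :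
    ∃ a : O, ∀ v ∈ T, v.valuation K (algebraMap O K a - x v) ≤ exp (-(n v : ℤ)) := by
  classical
  have h1 : ∀ v : HeightOneSpectrum O, ∃ a : O, v ∈ T →
      v.valuation K (algebraMap O K a - x v) ≤ exp (-(n v : ℤ)) := by
    intro v
    by_cases hv : v ∈ T
    · obtain ⟨a, ha⟩ := HeightOneSpectrum.exists_valuation_sub_lt_of_integer v (hx v hv)
        (Units.mk0 (exp (-(n v : ℤ))) exp_ne_zero)
      exact ⟨a, fun _ => ha.le⟩
    · exact ⟨0, fun h => absurd h hv⟩
  choose a ha using h1
  obtain ⟨y, hy⟩ := IsDedekindDomain.exists_forall_sub_mem_ideal (s := T)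
    (fun v : HeightOneSpectrum O => v.asIdeal) n (fun v _ => v.prime)
    (fun v _ w _ h he => h (HeightOneSpectrum.ext he)) (fun v => a v)
  refine ⟨y, fun v hv => ?_⟩
  have h2 : v.valuation K (algebraMap O K y - algebraMap O K (a v)) ≤ exp (-(n v : ℤ)) := by
    rw [← map_sub]
    exact (HeightOneSpectrum.valuation_of_algebraMap (K := K) v _).trans_le
      ((HeightOneSpectrum.intValuation_le_pow_iff_mem v _ _).2 (hy v hv))
  have e : algebraMap O K y - x v = (algebraMap O K y - algebraMap O K (a v)) +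
      (algebraMap O K (a v) - x v) := by ring
  rw [e]
  exact (Valuation.map_add _ _ _).trans (max_le h2 (ha v hv))

/-- integral elements with prescribed valuations -/
theorem presc_nat (T : Finset (HeightOneSpectrum O)) (n : HeightOneSpectrum O → ℕ) :
    ∃ a : O, ∀ v ∈ T, v.valuation K (algebraMap O K a) = exp (-(n v : ℤ)) := by
  have h1 : ∀ v : HeightOneSpectrum O, ∃ π : K, v.valuation K π = exp (-1 : ℤ) :=
    fun v => v.valuation_exists_uniformizer K
  choose π hπ using h1
  have h2 : ∀ v : HeightOneSpectrum O, v.valuation K (π v ^ n v) = exp (-(n v : ℤ)) := by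
    intro v
    rw [map_pow, hπ, ← exp_nsmul]
    congr 1
    simp
  obtain ⟨a, ha⟩ := approx T (fun v => π v ^ n v) (fun v _ => by
    rw [h2, ← exp_zero, exp_le_exp]
    omega) (fun v => n v + 1)
  refine ⟨a, fun v hv => ?_⟩
  rw [← h2 v]
  refine Valuation.map_eq_of_sub_lt _ ?_
  refine (ha v hv).trans_lt ?_
  rw [h2, exp_lt_exp]
  push_cast
  omega

/-- elements with prescribed valuations -/
theorem presc (T : Finset (HeightOneSpectrum O)) (j : HeightOneSpectrum O → ℤ) :
    ∃ s : K, s ≠ 0 ∧ ∀ v ∈ T, v.valuation K s = exp (j v) := by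
  classical
  by_cases hT : T.Nonempty
  · obtain ⟨a, ha⟩ := presc_nat (K := K) T (fun v => (-(j v)).toNat)
    obtain ⟨b, hb⟩ := presc_nat (K := K) T (fun v => (j v).toNat)
    have h1 : ∀ v ∈ T, v.valuation K (algebraMap O K a / algebraMap O K b) = exp (j v) := by
      intro v hv
      rw [map_div₀, ha v hv, hb v hv, ← exp_sub]
      congr 1
      omega
    refine ⟨algebraMap O K a / algebraMap O K b, ?_, h1⟩
    obtain ⟨v, hv⟩ := hT
    intro h0
    have := h1 v hv
    rw [h0, map_zero] at this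
    exact exp_ne_zero this.symm
  · rw [Finset.not_nonempty_iff_eq_empty] at hT
    subst hT
    exact ⟨1, one_ne_zero, fun v hv => absurd hv (Finset.notMem_empty v)⟩

end ded

/-- The number of the solutions of `x ^ 2 = 1` modulo `P ^ (2 E + 1)`. -/
theorem card_two {O : Type} [CommRing O] [IsDedekindDomain O] [Module.Free ℤ O] [Module.Finite ℤ O]
    (v : HeightOneSpectrum O) (E : ℕ) (h2 : (2 : O) ∈ v.asIdeal ^ E)
    (h2' : (2 : O) ∉ v.asIdeal ^ (E + 1)) :
    Nat.card {x : O ⧸ v.asIdeal ^ (2 * E + 1) // x ^ 2 = 1} =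
      2 * Ideal.absNorm v.asIdeal ^ E := by
  classical
  set P := v.asIdeal with hP
  have hle : P ^ (2 * E + 1) ≤ P ^ (E + 1) := Ideal.pow_le_pow_right (by omega)
  set f : (O ⧸ P ^ (2 * E + 1)) →+* (O ⧸ P ^ (E + 1)) := Ideal.Quotient.factor hle with hf
  have fs : Function.Surjective f := Ideal.Quotient.factor_surjective hle
  have hP0 : P ≠ ⊥ := v.ne_bot
  have hfin : ∀ k : ℕ, Finite (O ⧸ P ^ k) := fun k =>
    Ideal.finiteQuotientOfFreeOfNeBot _ (pow_ne_zero k hP0)
  haveI := hfin (2 * E + 1)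
  haveI := hfin (E + 1)
  have hN : ∀ k : ℕ, Nat.card (O ⧸ P ^ k) = Ideal.absNorm P ^ k := by
    intro k
    rw [← map_pow, Ideal.absNorm_apply, Submodule.cardQuot_apply]
  have hN0 : 0 < Ideal.absNorm P := by
    rw [Nat.pos_iff_ne_zero, Ne, Ideal.absNorm_eq_zero_iff]
    exact hP0
  -- the solutions
  have hv2 : v.intValuation (2 : O) = exp (-(E : ℤ)) := by
    refine le_antisymm ((HeightOneSpectrum.intValuation_le_pow_iff_mem v _ _).2 h2) ?_
    by_contra hc
    rw [not_le] at hc
    apply h2'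
    rw [hP, ← HeightOneSpectrum.intValuation_le_pow_iff_mem]
    have h0 : v.intValuation (2 : O) ≠ 0 := by
      intro h0
      apply h2'
      rw [hP, ← HeightOneSpectrum.intValuation_le_pow_iff_mem, h0]
      exact zero_le
    rw [← exp_log h0] at hc ⊢
    rw [exp_lt_exp] at hc
    rw [exp_le_exp]
    push_cast
    omega
  have key : ∀ x : O, x ^ 2 - 1 ∈ P ^ (2 * E + 1) ↔
      (x - 1 ∈ P ^ (E + 1) ∨ x + 1 ∈ P ^ (E + 1)) := by
    intro x
    have e1 : x ^ 2 - 1 = (x - 1) * (x + 1) := by ring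
    have e2 : x + 1 = (x - 1) + 2 := by ring
    have e3 : x - 1 = (x + 1) - 2 := by ring
    have hlt : (exp (-((E + 1 : ℕ) : ℤ)) : ℤᵐ⁰) < exp (-(E : ℤ)) := by
      rw [exp_lt_exp]; push_cast; omega
    constructor
    · intro h
      by_contra hc
      rw [not_or] at hc
      obtain ⟨c1, c2⟩ := hc
      rw [hP, ← HeightOneSpectrum.intValuation_le_pow_iff_mem, not_le] at c1 c2
      rw [hP, ← HeightOneSpectrum.intValuation_le_pow_iff_mem, e1, map_mul] at h
      have n1 : v.intValuation (x - 1) ≠ 0 := (zero_le.trans_lt c1).ne'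
      have n2 : v.intValuation (x + 1) ≠ 0 := (zero_le.trans_lt c2).ne'
      rw [← exp_log n1, exp_lt_exp] at c1
      rw [← exp_log n2, exp_lt_exp] at c2
      rw [← exp_log n1, ← exp_log n2, ← exp_add, exp_le_exp] at h
      push_cast at h c1 c2
      omega
    · rintro (h | h)
      · have h' := h
        rw [hP, ← HeightOneSpectrum.intValuation_le_pow_iff_mem] at h ⊢
        rw [e1, map_mul]
        have h3 : v.intValuation (x + 1) ≤ exp (-(E : ℤ)) := by
          rw [e2]
          exact (Valuation.map_add _ _ _).trans (max_le (h.trans hlt.le) hv2.le)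
        refine (mul_le_mul' h h3).trans (le_of_eq ?_)
        rw [← exp_add]
        congr 1
        push_cast
        ring
      · rw [hP, ← HeightOneSpectrum.intValuation_le_pow_iff_mem] at h ⊢
        rw [e1, map_mul]
        have h3 : v.intValuation (x - 1) ≤ exp (-(E : ℤ)) := by
          rw [e3]
          exact (Valuation.map_sub _ _ _).trans (max_le (h.trans hlt.le) hv2.le)
        refine (mul_le_mul' h3 h).trans (le_of_eq ?_)
        rw [← exp_add]
        congr 1
        push_cast
        ring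
  have key2 : ∀ x : O ⧸ P ^ (2 * E + 1), x ^ 2 = 1 ↔ f x = 1 ∨ f x = -1 := by
    intro x
    obtain ⟨y, rfl⟩ := Ideal.Quotient.mk_surjective x
    have a1 : (Ideal.Quotient.mk (P ^ (2 * E + 1)) y) ^ 2 = 1 ↔ y ^ 2 - 1 ∈ P ^ (2 * E + 1) := by
      rw [← map_pow, ← map_one (Ideal.Quotient.mk (P ^ (2 * E + 1))), Ideal.Quotient.eq]
    have a2 : f (Ideal.Quotient.mk (P ^ (2 * E + 1)) y) = 1 ↔ y - 1 ∈ P ^ (E + 1) := by
      rw [hf, Ideal.Quotient.factor_mk, ← map_one (Ideal.Quotient.mk (P ^ (E + 1))),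
        Ideal.Quotient.eq]
    have a3 : f (Ideal.Quotient.mk (P ^ (2 * E + 1)) y) = -1 ↔ y + 1 ∈ P ^ (E + 1) := by
      rw [hf, Ideal.Quotient.factor_mk, ← map_one (Ideal.Quotient.mk (P ^ (E + 1))), ← map_neg,
        Ideal.Quotient.eq, sub_neg_eq_add]
    rw [a1, a2, a3]
    exact key y
  have hne : (1 : O ⧸ P ^ (E + 1)) ≠ -1 := by
    intro h
    apply h2'
    rw [← map_one (Ideal.Quotient.mk (P ^ (E + 1))), ← map_neg, Ideal.Quotient.eq] at h
    have e : (1 : O) - -1 = 2 := by norm_num
    rwa [e] at h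
  -- the fibres
  letI := Fintype.ofFinite (O ⧸ P ^ (2 * E + 1))
  letI := Fintype.ofFinite (O ⧸ P ^ (E + 1))
  obtain ⟨k, hk⟩ : ∃ k : ℕ, ∀ y : O ⧸ P ^ (E + 1),
      (Finset.univ.filter fun x => f x = y).card = k := by
    refine ⟨(Finset.univ.filter fun x => f x = 0).card, fun y => ?_⟩
    exact AddMonoidHom.card_fiber_eq_of_mem_range f.toAddMonoidHom (fs y) (fs 0)
  have htot : Fintype.card (O ⧸ P ^ (2 * E + 1)) = Fintype.card (O ⧸ P ^ (E + 1)) * k := by
    rw [← Finset.card_univ, Finset.card_eq_sum_card_fiberwise (f := f) (t := Finset.univ)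
      (fun _ _ => Finset.mem_coe.2 (Finset.mem_univ _)), Finset.sum_congr rfl fun y _ => hk y]
    rw [Finset.sum_const, Finset.card_univ, smul_eq_mul]
  rw [← Nat.card_eq_fintype_card, ← Nat.card_eq_fintype_card, hN, hN] at htot
  have hkv : k = Ideal.absNorm P ^ E := by
    have : 2 * E + 1 = (E + 1) + E := by ring
    rw [this, pow_add] at htot
    exact (Nat.eq_of_mul_eq_mul_left (pow_pos hN0 _) htot).symm
  rw [Nat.card_eq_fintype_card, Fintype.card_subtype]
  have hun : (Finset.univ.filter fun x : O ⧸ P ^ (2 * E + 1) => x ^ 2 = 1) =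
      (Finset.univ.filter fun x => f x = 1) ∪ (Finset.univ.filter fun x => f x = -1) := by
    ext x
    simp only [Finset.mem_filter, Finset.mem_univ, true_and, Finset.mem_union]
    exact key2 x
  rw [hun, Finset.card_union_of_disjoint, hk, hk, hkv, two_mul]
  rw [Finset.disjoint_filter]
  intro x _ h h'
  exact hne (h.symm.trans h')

end Pool.Agent.H48L
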